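import Pool.Agent.helper16.GS.SpecS

set_option autoImplicit false

open MeasureTheory Set

namespace Pool.Agent.GS

/-- Lower bound of an integral over two adjacent intervals. -/
lemma S4_intlow {F : ℝ → ℝ} {p m q c d : ℝ} (hpm : p ≤ m) (hmq : m ≤ q)
    (hF : ∀ a b : ℝ, IntervalIntegrable F volume a b)
    (h1 : ∀ t ∈ Icc p m, c ≤ F t) (h2 : ∀ t ∈ Icc m q, d ≤ F t) :
    c * (m - p) + d * (q - m) ≤ ∫ t in p..q, F t := by
  have e1 : c * (m - p) ≤ ∫ t in p..m, F t := by
    have h := intervalIntegral.integral_mono_on hpm (intervalIntegrable_const (c := c)) (hF p m) h1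
    simp only [intervalIntegral.integral_const, smul_eq_mul] at h
    linarith
  have e2 : d * (q - m) ≤ ∫ t in m..q, F t := by
    have h := intervalIntegral.integral_mono_on hmq (intervalIntegrable_const (c := d)) (hF m q) h2
    simp only [intervalIntegral.integral_const, smul_eq_mul] at h
    linarith
  have e3 := intervalIntegral.integral_add_adjacent_intervals (hF p m) (hF m q)
  linarith

/-- A near minimum on an interval. -/
lemma S4_nearmin {R : ℝ → ℝ} {p q L τ : ℝ} (hpq : p ≤ q) (hL : ∀ t ∈ Icc p q, L ≤ R t)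
    (hτ : 0 < τ) : ∃ T ∈ Icc p q, ∀ s ∈ Icc p q, R T ≤ R s + τ := by
  have hne : (R '' Icc p q).Nonempty := ⟨R p, p, ⟨le_rfl, hpq⟩, rfl⟩
  have hbd : BddBelow (R '' Icc p q) := ⟨L, by rintro _ ⟨t, ht, rfl⟩; exact hL t ht⟩
  obtain ⟨_, ⟨T, hT, rfl⟩, hlt⟩ := exists_lt_of_csInf_lt hne
    (show sInf (R '' Icc p q) < sInf (R '' Icc p q) + τ by linarith)
  refine ⟨T, hT, fun s hs => ?_⟩
  have h := csInf_le hbd ⟨s, hs, rfl⟩
  linarith

/-- The function R drops slowly. -/
lemma S4_drop {V : ℝ → ℝ} (hV : Monotone V) {s u : ℝ} (h0 : 0 ≤ u) (h1 : u ≤ 1) :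
    (V s - Real.exp s) - 2 * Real.exp s * u ≤ V (s + u) - Real.exp (s + u) := by
  have hm : V s ≤ V (s + u) := hV (by linarith)
  have he : Real.exp u - 1 ≤ 2 * u := by
    have h := Real.abs_exp_sub_one_le (x := u) (by rw [abs_of_nonneg h0]; exact h1)
    rw [abs_of_nonneg h0] at h
    exact le_trans (le_abs_self _) h
  have hs : 0 < Real.exp s := Real.exp_pos s
  have : Real.exp (s + u) - Real.exp s ≤ 2 * Real.exp s * u := by
    rw [Real.exp_add]
    nlinarith
  linarith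

lemma S4_integrable {V : ℝ → ℝ} (hV : Monotone V) (c a b : ℝ) :
    IntervalIntegrable (fun t => (V t - Real.exp t) - c) volume a b := by
  refine IntervalIntegrable.sub (IntervalIntegrable.sub hV.intervalIntegrable ?_) intervalIntegrable_const
  exact Real.continuous_exp.intervalIntegrable a b

/-- Case of a decrease. -/
lemma S4_neg {V : ℝ → ℝ} (hV : Monotone V) {x h D : ℝ} (hx : 1 ≤ x) (hh : 0 ≤ h) (hhx : h ≤ x)
    (hD : 0 < D)
    (hR : (V (Real.log (x + h)) - Real.exp (Real.log (x + h))) - (V (Real.log x) - Real.exp (Real.log x)) = -D) :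
    ∃ T v : ℝ, Real.log x ≤ T ∧ T ≤ Real.log (x + h) ∧ 0 < v ∧ v ≤ h / x ∧
      D ^ 2 / (16 * x) ≤ ∫ t in (T - v)..T, ((V t - Real.exp t) - (V T - Real.exp T)) := by
  have hx0 : 0 < x := by linarith
  have hxh : 0 < x + h := by linarith
  set t0 := Real.log x with ht0
  set t1 := Real.log (x + h) with ht1
  have e0 : Real.exp t0 = x := Real.exp_log hx0
  have e1 : Real.exp t1 = x + h := Real.exp_log hxh
  have h01 : t0 ≤ t1 := Real.log_le_log hx0 (by linarith)
  have hlen : t1 - t0 ≤ h / x := by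
    rw [ht0, ht1, ← Real.log_div (by linarith) (by linarith)]
    have : (x + h) / x = 1 + h / x := by field_simp
    rw [this]
    have hq : 0 ≤ h / x := by positivity
    have := Real.log_le_sub_one_of_pos (show (0 : ℝ) < 1 + h / x by linarith)
    linarith
  have hhx1 : h / x ≤ 1 := by rw [div_le_one hx0]; exact hhx
  have hDh : D ≤ h := by
    have := hV h01
    rw [e0, e1] at hR
    linarith
  have hDx : D ≤ x := le_trans hDh hhx
  have hτ : 0 < D ^ 2 / (16 * x) := by positivity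
  obtain ⟨T, hT, hmin⟩ := S4_nearmin (R := fun t => V t - Real.exp t) (p := t0) (q := t1)
    (L := V t0 - (x + h)) (τ := D ^ 2 / (16 * x)) h01
    (by
      intro t ht
      have a1 := hV ht.1
      have a2 := Real.exp_le_exp.2 ht.2
      rw [e1] at a2
      show V t0 - (x + h) ≤ V t - Real.exp t
      linarith) hτ
  have hmT1 := hmin t1 ⟨h01, le_rfl⟩
  have hτD : D ^ 2 / (16 * x) ≤ D / 16 := by
    rw [div_le_div_iff₀ (by positivity) (by norm_num)]
    nlinarith
  set a := D / (4 * x) with ha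
  have ha0 : 0 < a := by positivity
  have ha1 : a ≤ 1 := by
    rw [ha, div_le_one (by positivity)]; linarith
  have hxa : 2 * x * a = D / 2 := by rw [ha]; field_simp; ring
  -- T is to the right of t0 + a
  have hTa : t0 + a ≤ T := by
    by_contra hcon
    push Not at hcon
    have hu0 : 0 ≤ T - t0 := by linarith [hT.1]
    have hdrop := S4_drop hV (s := t0) (u := T - t0) hu0 (by linarith)
    rw [show t0 + (T - t0) = T by ring, e0] at hdrop
    have : 2 * x * (T - t0) ≤ 2 * x * a := by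
      apply mul_le_mul_of_nonneg_left _ (by positivity); linarith
    rw [e0] at hR
    linarith
  refine ⟨T, T - t0, hT.1, hT.2, by linarith, by linarith [hT.2], ?_⟩
  rw [show T - (T - t0) = t0 by ring]
  have hlow := S4_intlow (F := fun t => (V t - Real.exp t) - (V T - Real.exp T)) (p := t0) (m := t0 + a) (q := T)
    (c := D / 2 - D ^ 2 / (16 * x)) (d := -(D ^ 2 / (16 * x))) (by linarith) hTa
    (fun u w => S4_integrable hV _ u w)
    (by
      intro t ht
      have hu0 : 0 ≤ t - t0 := by linarith [ht.1]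
      have hdrop := S4_drop hV (s := t0) (u := t - t0) hu0 (by linarith [ht.2])
      rw [show t0 + (t - t0) = t by ring] at hdrop
      have h3 : 2 * x * (t - t0) ≤ 2 * x * a := by
        apply mul_le_mul_of_nonneg_left _ (by positivity); linarith [ht.2]
      rw [e0] at hdrop hR
      show D / 2 - D ^ 2 / (16 * x) ≤ (V t - Real.exp t) - (V T - Real.exp T)
      linarith)
    (by
      intro t ht
      have h3 := hmin t ⟨by linarith [ht.1], by linarith [ht.2, hT.2]⟩
      show -(D ^ 2 / (16 * x)) ≤ (V t - Real.exp t) - (V T - Real.exp T)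
      linarith)
  have hTt : T - t0 ≤ 1 := by linarith [hT.2]
  have key : (D / 2 - D ^ 2 / (16 * x)) * (t0 + a - t0) + -(D ^ 2 / (16 * x)) * (T - (t0 + a))
      = D / 2 * a - D ^ 2 / (16 * x) * (T - t0) := by ring
  have haD : D / 2 * a = 2 * (D ^ 2 / (16 * x)) := by rw [ha]; field_simp; ring
  have : D ^ 2 / (16 * x) * (T - t0) ≤ D ^ 2 / (16 * x) * 1 :=
    mul_le_mul_of_nonneg_left hTt hτ.le
  linarith

/-- Case of an increase. -/
lemma S4_pos {V : ℝ → ℝ} (hV : Monotone V) {x h D : ℝ} (hx : 1 ≤ x) (hh : 0 ≤ h) (hhx : h ≤ x)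
    (hD : 0 < D) (hDx : D ≤ x)
    (hR : (V (Real.log (x + h)) - Real.exp (Real.log (x + h))) - (V (Real.log x) - Real.exp (Real.log x)) = D) :
    ∃ T v : ℝ, Real.log x ≤ T ∧ T ≤ Real.log (x + h) ∧ 0 < v ∧ v ≤ h / x + D / (4 * x) ∧
      D ^ 2 / (32 * x) ≤ ∫ t in T..(T + v), ((V t - Real.exp t) - (V T - Real.exp T)) := by
  have hx0 : 0 < x := by linarith
  have hxh : 0 < x + h := by linarith
  set t0 := Real.log x with ht0
  set t1 := Real.log (x + h) with ht1
  have e0 : Real.exp t0 = x := Real.exp_log hx0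
  have e1 : Real.exp t1 = x + h := Real.exp_log hxh
  have h01 : t0 ≤ t1 := Real.log_le_log hx0 (by linarith)
  have hlen : t1 - t0 ≤ h / x := by
    rw [ht0, ht1, ← Real.log_div (by linarith) (by linarith)]
    have : (x + h) / x = 1 + h / x := by field_simp
    rw [this]
    have hq : 0 ≤ h / x := by positivity
    have := Real.log_le_sub_one_of_pos (show (0 : ℝ) < 1 + h / x by linarith)
    linarith
  have hhx1 : h / x ≤ 1 := by rw [div_le_one hx0]; exact hhx
  have hτ : 0 < D ^ 2 / (64 * x) := by positivity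
  obtain ⟨T, hT, hmin⟩ := S4_nearmin (R := fun t => V t - Real.exp t) (p := t0) (q := t1)
    (L := V t0 - (x + h)) (τ := D ^ 2 / (64 * x)) h01
    (by
      intro t ht
      have a1 := hV ht.1
      have a2 := Real.exp_le_exp.2 ht.2
      rw [e1] at a2
      show V t0 - (x + h) ≤ V t - Real.exp t
      linarith) hτ
  have hmT0 := hmin t0 ⟨le_rfl, h01⟩
  set a := D / (4 * (x + h)) with ha
  have ha0 : 0 < a := by positivity
  have ha4 : a ≤ D / (4 * x) := by
    rw [ha]
    apply div_le_div_of_nonneg_left hD.le (by positivity) (by linarith)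
  have hD4 : D / (4 * x) ≤ 1 := by
    rw [div_le_one (by positivity)]; linarith
  have ha1 : a ≤ 1 := le_trans ha4 hD4
  have hxa : 2 * (x + h) * a = D / 2 := by rw [ha]; field_simp; ring
  refine ⟨T, t1 + a - T, hT.1, hT.2, by linarith [hT.2], by linarith [hT.1], ?_⟩
  rw [show T + (t1 + a - T) = t1 + a by ring]
  have hlow := S4_intlow (F := fun t => (V t - Real.exp t) - (V T - Real.exp T)) (p := T) (m := t1) (q := t1 + a)
    (c := -(D ^ 2 / (64 * x))) (d := D / 2 - D ^ 2 / (64 * x)) hT.2 (by linarith)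
    (fun u w => S4_integrable hV _ u w)
    (by
      intro t ht
      have h3 := hmin t ⟨by linarith [ht.1, hT.1], ht.2⟩
      show -(D ^ 2 / (64 * x)) ≤ (V t - Real.exp t) - (V T - Real.exp T)
      linarith)
    (by
      intro t ht
      have hu0 : 0 ≤ t - t1 := by linarith [ht.1]
      have hdrop := S4_drop hV (s := t1) (u := t - t1) hu0 (by linarith [ht.2])
      rw [show t1 + (t - t1) = t by ring] at hdrop
      have h3 : 2 * (x + h) * (t - t1) ≤ 2 * (x + h) * a := by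
        apply mul_le_mul_of_nonneg_left _ (by positivity); linarith [ht.2]
      rw [e1] at hdrop hR
      show D / 2 - D ^ 2 / (64 * x) ≤ (V t - Real.exp t) - (V T - Real.exp T)
      linarith)
  have hTt : t1 + a - T ≤ 2 := by linarith [hT.1]
  have key : -(D ^ 2 / (64 * x)) * (t1 - T) + (D / 2 - D ^ 2 / (64 * x)) * (t1 + a - t1)
      = D / 2 * a - D ^ 2 / (64 * x) * (t1 + a - T) := by ring
  have haD : D ^ 2 / (16 * x) ≤ D / 2 * a := by
    have : D / 2 * a = D ^ 2 / (8 * (x + h)) := by rw [ha]; field_simp; ring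
    rw [this]
    apply div_le_div_of_nonneg_left (by positivity) (by positivity) (by linarith)
  have h5 : D ^ 2 / (64 * x) * (t1 + a - T) ≤ D ^ 2 / (64 * x) * 2 :=
    mul_le_mul_of_nonneg_left hTt hτ.le
  have h6 : D ^ 2 / (16 * x) - D ^ 2 / (64 * x) * 2 = D ^ 2 / (32 * x) := by field_simp; ring
  linarith

/-- The common final computation. -/
lemma S4_final {x h D v T b g K δ : ℝ} (hx : 1 ≤ x) (hh : 0 ≤ h) (hD : 0 < D) (hK : 0 < K) (hb : 0 ≤ b)
    (hg0 : 0 ≤ g) (hg1 : g ≤ 1) (hδ : δ = 1 - g) (hv0 : 0 < v) (hv : v ≤ h / x + D / (4 * x))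
    (hT : Real.exp T ≤ 2 * x) (hKx : 16 * K ≤ x ^ δ)
    (hmain : D ^ 2 / (32 * x) ≤ K * Real.exp (b * T) + K * v ^ 2 * Real.exp (g * T)) :
    D ≤ 16 * Real.sqrt (K * 2 ^ b) * (x ^ ((1 + b) / 2) + h * x ^ (-(δ / 2))) := by
  have hx0 : 0 < x := by linarith
  have hTb : Real.exp (b * T) ≤ 2 ^ b * x ^ b := by
    rw [mul_comm b T, Real.exp_mul, ← Real.mul_rpow (by norm_num) hx0.le]
    exact Real.rpow_le_rpow (Real.exp_pos _).le hT hb
  have hTg : Real.exp (g * T) ≤ 2 * x ^ g := by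
    rw [mul_comm g T, Real.exp_mul]
    calc (Real.exp T) ^ g ≤ (2 * x) ^ g := Real.rpow_le_rpow (Real.exp_pos _).le hT hg0
      _ = 2 ^ g * x ^ g := Real.mul_rpow (by norm_num) hx0.le
      _ ≤ 2 * x ^ g := by
        apply mul_le_mul_of_nonneg_right _ (Real.rpow_nonneg hx0.le _)
        calc (2 : ℝ) ^ g ≤ 2 ^ (1 : ℝ) := Real.rpow_le_rpow_of_exponent_le (by norm_num) hg1
          _ = 2 := Real.rpow_one 2
  have hxδ : 0 < x ^ δ := Real.rpow_pos_of_pos hx0 _
  have hxmδ : 0 < x ^ (-δ) := Real.rpow_pos_of_pos hx0 _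
  have hprod : x ^ δ * x ^ (-δ) = 1 := by
    rw [← Real.rpow_add hx0]; simp
  have hxg : x ^ g = x * x ^ (-δ) := by
    rw [show g = 1 + (-δ) by rw [hδ]; ring, Real.rpow_add hx0, Real.rpow_one]
  have hKδ : K * x ^ (-δ) ≤ 1 / 16 := by
    have := mul_le_mul_of_nonneg_right hKx hxmδ.le
    rw [hprod] at this
    linarith
  have hv2 : v ^ 2 ≤ 2 * (h ^ 2 + D ^ 2 / 16) / x ^ 2 := by
    have e : h / x + D / (4 * x) = (h + D / 4) / x := by field_simp
    rw [e] at hv
    have h1 : v ^ 2 ≤ ((h + D / 4) / x) ^ 2 := by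
      apply pow_le_pow_left₀ hv0.le hv
    rw [div_pow] at h1
    refine le_trans h1 ?_
    apply div_le_div_of_nonneg_right _ (by positivity)
    nlinarith [sq_nonneg (h - D / 4)]
  have hsecond : K * v ^ 2 * Real.exp (g * T) ≤ 4 * K * h ^ 2 * x ^ (-δ) / x + D ^ 2 / (64 * x) := by
    calc K * v ^ 2 * Real.exp (g * T) ≤ K * (2 * (h ^ 2 + D ^ 2 / 16) / x ^ 2) * (2 * x ^ g) := by
          apply mul_le_mul (mul_le_mul_of_nonneg_left hv2 hK.le) hTg (Real.exp_pos _).le
          positivity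
      _ = 4 * K * h ^ 2 * x ^ (-δ) / x + (K * x ^ (-δ)) * (D ^ 2 / (4 * x)) := by
          rw [hxg]; field_simp; ring
      _ ≤ 4 * K * h ^ 2 * x ^ (-δ) / x + (1 / 16) * (D ^ 2 / (4 * x)) := by
          have := mul_le_mul_of_nonneg_right hKδ (show 0 ≤ D ^ 2 / (4 * x) by positivity)
          linarith
      _ = 4 * K * h ^ 2 * x ^ (-δ) / x + D ^ 2 / (64 * x) := by
          congr 1; field_simp; ring
  have hfirst : K * Real.exp (b * T) ≤ K * (2 ^ b * x ^ b) := mul_le_mul_of_nonneg_left hTb hK.le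
  have hsq : D ^ 2 ≤ 64 * (K * 2 ^ b) * x ^ (1 + b) + 256 * K * h ^ 2 * x ^ (-δ) := by
    have e1 : D ^ 2 / (32 * x) = 2 * (D ^ 2 / (64 * x)) := by field_simp; ring
    have e2 : D ^ 2 / (64 * x) ≤ K * (2 ^ b * x ^ b) + 4 * K * h ^ 2 * x ^ (-δ) / x := by linarith
    rw [div_le_iff₀ (by positivity)] at e2
    have e3 : x ^ (1 + b) = x * x ^ b := by rw [Real.rpow_add hx0, Real.rpow_one]
    have e4 : (K * (2 ^ b * x ^ b) + 4 * K * h ^ 2 * x ^ (-δ) / x) * (64 * x) =
        64 * (K * 2 ^ b) * (x * x ^ b) + 256 * K * h ^ 2 * x ^ (-δ) := by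
      field_simp; ring
    rw [e3]; linarith
  have h2b : (1 : ℝ) ≤ 2 ^ b := Real.one_le_rpow (by norm_num) hb
  have hKb : 0 < K * 2 ^ b := by positivity
  have hA : (16 * Real.sqrt (K * 2 ^ b)) ^ 2 = 256 * (K * 2 ^ b) := by
    rw [mul_pow, Real.sq_sqrt hKb.le]; norm_num
  have hp1 : (x ^ ((1 + b) / 2)) ^ 2 = x ^ (1 + b) := by
    rw [← Real.rpow_natCast, ← Real.rpow_mul hx0.le]; congr 1; push_cast; ring
  have hp2 : (x ^ (-(δ / 2))) ^ 2 = x ^ (-δ) := by
    rw [← Real.rpow_natCast, ← Real.rpow_mul hx0.le]; congr 1; push_cast; ring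
  have hP1 : 0 < x ^ ((1 + b) / 2) := Real.rpow_pos_of_pos hx0 _
  have hP2 : 0 < x ^ (-(δ / 2)) := Real.rpow_pos_of_pos hx0 _
  have hX : 0 ≤ x ^ ((1 + b) / 2) + h * x ^ (-(δ / 2)) := by positivity
  have hsum : x ^ (1 + b) + h ^ 2 * x ^ (-δ) ≤ (x ^ ((1 + b) / 2) + h * x ^ (-(δ / 2))) ^ 2 := by
    rw [← hp1, ← hp2]
    have : 0 ≤ x ^ ((1 + b) / 2) * (h * x ^ (-(δ / 2))) := by positivity
    nlinarith
  have hfin : D ^ 2 ≤ (16 * Real.sqrt (K * 2 ^ b) * (x ^ ((1 + b) / 2) + h * x ^ (-(δ / 2)))) ^ 2 := by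
    rw [mul_pow, hA]
    have hxb : 0 ≤ x ^ (1 + b) := Real.rpow_nonneg hx0.le _
    have t1 : 64 * (K * 2 ^ b) * x ^ (1 + b) ≤ 256 * (K * 2 ^ b) * x ^ (1 + b) := by
      apply mul_le_mul_of_nonneg_right _ hxb; linarith
    have t2 : 256 * K * h ^ 2 * x ^ (-δ) ≤ 256 * (K * 2 ^ b) * (h ^ 2 * x ^ (-δ)) := by
      have hz : 0 ≤ h ^ 2 * x ^ (-δ) := by positivity
      have : K * (h ^ 2 * x ^ (-δ)) ≤ (K * 2 ^ b) * (h ^ 2 * x ^ (-δ)) := by
        apply mul_le_mul_of_nonneg_right _ hz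
        nlinarith
      nlinarith
    have t3 := mul_le_mul_of_nonneg_left hsum (show 0 ≤ 256 * (K * 2 ^ b) by positivity)
    linarith
  exact (pow_le_pow_iff_left₀ hD.le (by positivity) two_ne_zero).1 hfin

theorem S4 : S4_stmt := by
  intro V f C b K T0 hV hf1 hf2 hC hb hK hRb hL hRt
  obtain ⟨δ, hδ⟩ : ∃ δ : ℝ, δ = (1 - f) / 2 := ⟨_, rfl⟩
  obtain ⟨g, hg⟩ : ∃ g : ℝ, g = (1 + f) / 2 := ⟨_, rfl⟩
  have hδ0 : 0 < δ := by rw [hδ]; linarith
  have hδg : δ = 1 - g := by rw [hδ, hg]; ring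
  rw [← hδ] at hL hRt
  rw [← hg] at hL hRt
  -- the threshold
  obtain ⟨M, hM⟩ : ∃ M : ℝ, M = max (max (3 * C) (16 * K)) 1 := ⟨_, rfl⟩
  have hM1 : 1 ≤ M := by rw [hM]; exact le_max_right _ _
  have hMC : 3 * C ≤ M := by rw [hM]; exact le_trans (le_max_left _ _) (le_max_left _ _)
  have hMK : 16 * K ≤ M := by rw [hM]; exact le_trans (le_max_right _ _) (le_max_left _ _)
  have hM0 : 0 < M := by linarith
  refine ⟨16 * Real.sqrt (K * 2 ^ b) + 12 * C, max (max (Real.exp T0) (M ^ (1 / δ))) 1, by positivity,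
    le_max_right _ _, ?_⟩
  intro x h hx hh hhx
  have hx1 : 1 ≤ x := le_trans (le_max_right _ _) hx
  have hx0 : 0 < x := by linarith
  have hxT : Real.exp T0 ≤ x := le_trans (le_trans (le_max_left _ _) (le_max_left _ _)) hx
  have hxM : M ^ (1 / δ) ≤ x := le_trans (le_trans (le_max_right _ _) (le_max_left _ _)) hx
  have hxδM : M ≤ x ^ δ := by
    have := Real.rpow_le_rpow (Real.rpow_nonneg hM0.le _) hxM hδ0.le
    rwa [← Real.rpow_mul hM0.le, one_div_mul_cancel hδ0.ne', Real.rpow_one] at this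
  have hT0 : T0 ≤ Real.log x := by
    rw [← Real.log_exp T0]; exact Real.log_le_log (Real.exp_pos _) hxT
  have e0 : Real.exp (Real.log x) = x := Real.exp_log hx0
  have e1 : Real.exp (Real.log (x + h)) = x + h := Real.exp_log (by linarith)
  have ht0 : 0 ≤ Real.log x := Real.log_nonneg hx1
  have ht1 : 0 ≤ Real.log (x + h) := Real.log_nonneg (by linarith)
  have hxf : 0 < x ^ f := Real.rpow_pos_of_pos hx0 _
  -- trivial bound
  have htriv : |(V (Real.log (x + h)) - Real.exp (Real.log (x + h))) - (V (Real.log x) - Real.exp (Real.log x))|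
      ≤ 3 * C * x ^ f := by
    have a0 := hRb _ ht0
    have a1 := hRb _ ht1
    have b0 : Real.exp (f * Real.log x) = x ^ f := by
      rw [mul_comm, Real.exp_mul, e0]
    have b1 : Real.exp (f * Real.log (x + h)) ≤ 2 * x ^ f := by
      rw [mul_comm, Real.exp_mul, e1]
      calc (x + h) ^ f ≤ (2 * x) ^ f := Real.rpow_le_rpow (by linarith) (by linarith) (by linarith)
        _ = 2 ^ f * x ^ f := Real.mul_rpow (by norm_num) hx0.le
        _ ≤ 2 * x ^ f := by
          apply mul_le_mul_of_nonneg_right _ hxf.le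
          calc (2 : ℝ) ^ f ≤ 2 ^ (1 : ℝ) := Real.rpow_le_rpow_of_exponent_le (by norm_num) hf2.le
            _ = 2 := Real.rpow_one 2
    rw [b0] at a0
    have a1' : |V (Real.log (x + h)) - Real.exp (Real.log (x + h))| ≤ C * (2 * x ^ f) :=
      le_trans a1 (mul_le_mul_of_nonneg_left b1 hC.le)
    calc _ ≤ |V (Real.log (x + h)) - Real.exp (Real.log (x + h))| + |V (Real.log x) - Real.exp (Real.log x)| :=
          abs_sub _ _
      _ ≤ 3 * C * x ^ f := by linarith
  have hgoal : V (Real.log (x + h)) - V (Real.log x) - h =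
      (V (Real.log (x + h)) - Real.exp (Real.log (x + h))) - (V (Real.log x) - Real.exp (Real.log x)) := by
    rw [e0, e1]; ring
  rw [hgoal]
  have hexp4 : -((1 - f) / 4) = -(δ / 2) := by rw [hδ]; ring
  rw [hexp4]
  have hA0 : 0 ≤ 16 * Real.sqrt (K * 2 ^ b) := by positivity
  have hP1 : 0 < x ^ ((1 + b) / 2) := Real.rpow_pos_of_pos hx0 _
  have hP2 : 0 < x ^ (-(δ / 2)) := Real.rpow_pos_of_pos hx0 _
  by_cases hbig : x ^ g / 4 ≤ h
  · -- large h
    have h1 : x ^ f ≤ x ^ (g + -(δ / 2)) := by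
      apply Real.rpow_le_rpow_of_exponent_le hx1
      rw [hδ, hg]; linarith
    have h2 : x ^ (g + -(δ / 2)) = x ^ g * x ^ (-(δ / 2)) := Real.rpow_add hx0 _ _
    have h3 : x ^ g * x ^ (-(δ / 2)) ≤ 4 * h * x ^ (-(δ / 2)) := by
      apply mul_le_mul_of_nonneg_right _ hP2.le; linarith
    calc _ ≤ 3 * C * x ^ f := htriv
      _ ≤ 3 * C * (4 * h * x ^ (-(δ / 2))) := by
        apply mul_le_mul_of_nonneg_left _ (by positivity); linarith
      _ = 12 * C * (h * x ^ (-(δ / 2))) := by ring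
      _ ≤ (16 * Real.sqrt (K * 2 ^ b) + 12 * C) * (x ^ ((1 + b) / 2) + h * x ^ (-(δ / 2))) := by
        have q1 : 0 ≤ h * x ^ (-(δ / 2)) := by positivity
        nlinarith [mul_nonneg hA0 hP1.le, mul_nonneg hA0 q1, mul_nonneg hC.le hP1.le]
  · -- small h
    push Not at hbig
    have hxδ0 : 0 < x ^ δ := Real.rpow_pos_of_pos hx0 _
    have hxmδ : 0 < x ^ (-δ) := Real.rpow_pos_of_pos hx0 _
    have hprod : x ^ δ * x ^ (-δ) = 1 := by
      rw [← Real.rpow_add hx0]; simp
    have hxg : x ^ g = x * x ^ (-δ) := by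
      rw [show g = 1 + (-δ) by rw [hδg]; ring, Real.rpow_add hx0, Real.rpow_one]
    have hxfe : x ^ f = x * (x ^ (-δ) * x ^ (-δ)) := by
      rw [show f = 1 + (-δ + -δ) by rw [hδ]; ring, Real.rpow_add hx0, Real.rpow_add hx0, Real.rpow_one]
    have hCδ : 3 * C * x ^ (-δ) ≤ 1 := by
      have := mul_le_mul_of_nonneg_right (le_trans hMC hxδM) hxmδ.le
      rwa [hprod] at this
    have hxmδ1 : x ^ (-δ) ≤ 1 := by
      have := mul_le_mul_of_nonneg_right (le_trans hM1 hxδM) hxmδ.le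
      rwa [hprod, one_mul] at this
    have h3f : 3 * C * x ^ f ≤ x * x ^ (-δ) := by
      rw [hxfe]
      calc 3 * C * (x * (x ^ (-δ) * x ^ (-δ))) = (3 * C * x ^ (-δ)) * (x * x ^ (-δ)) := by ring
        _ ≤ 1 * (x * x ^ (-δ)) := mul_le_mul_of_nonneg_right hCδ (by positivity)
        _ = x * x ^ (-δ) := one_mul _
    have h3x : 3 * C * x ^ f ≤ x := by
      have : x * x ^ (-δ) ≤ x * 1 := mul_le_mul_of_nonneg_left hxmδ1 hx0.le
      linarith
    -- the range of v
    have hrange : ∀ D T v : ℝ, 0 ≤ D → D ≤ 3 * C * x ^ f → v ≤ h / x + D / (4 * x) → Real.exp T ≤ 2 * x →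
        v ≤ Real.exp (-δ * T) := by
      intro D T v hD0 hD hv hT
      have c1 : h / x ≤ x ^ (-δ) / 4 := by
        rw [div_le_iff₀ hx0]
        rw [hxg] at hbig
        linarith
      have c2 : D / (4 * x) ≤ x ^ (-δ) / 4 := by
        rw [div_le_iff₀ (by positivity)]
        have : D ≤ x * x ^ (-δ) := le_trans hD h3f
        linarith
      have c3 : x ^ (-δ) / 2 ≤ Real.exp (-δ * T) := by
        rw [mul_comm (-δ) T, Real.exp_mul]
        calc x ^ (-δ) / 2 = (2 : ℝ) ^ (-(1 : ℝ)) * x ^ (-δ) := by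
              rw [Real.rpow_neg (show (0 : ℝ) ≤ 2 by norm_num), Real.rpow_one]; ring
          _ ≤ 2 ^ (-δ) * x ^ (-δ) := by
              apply mul_le_mul_of_nonneg_right _ hxmδ.le
              apply Real.rpow_le_rpow_of_exponent_le (by norm_num)
              rw [hδ]; linarith
          _ = (2 * x) ^ (-δ) := (Real.mul_rpow (by norm_num) hx0.le).symm
          _ ≤ (Real.exp T) ^ (-δ) := Real.rpow_le_rpow_of_nonpos (Real.exp_pos _) hT (by linarith)
      linarith
    have hTexp : ∀ T : ℝ, T ≤ Real.log (x + h) → Real.exp T ≤ 2 * x := by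
      intro T hT
      have := Real.exp_le_exp.2 hT
      rw [e1] at this; linarith
    have hg0 : 0 ≤ g := by rw [hg]; linarith
    have hg1 : g ≤ 1 := by rw [hg]; linarith
    have hKx : 16 * K ≤ x ^ δ := le_trans hMK hxδM
    have hq : 0 ≤ h * x ^ (-(δ / 2)) := by positivity
    have hlast : 16 * Real.sqrt (K * 2 ^ b) * (x ^ ((1 + b) / 2) + h * x ^ (-(δ / 2))) ≤
        (16 * Real.sqrt (K * 2 ^ b) + 12 * C) * (x ^ ((1 + b) / 2) + h * x ^ (-(δ / 2))) := by
      apply mul_le_mul_of_nonneg_right _ (by positivity)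
      linarith
    refine le_trans ?_ hlast
    rcases lt_trichotomy ((V (Real.log (x + h)) - Real.exp (Real.log (x + h))) -
        (V (Real.log x) - Real.exp (Real.log x))) 0 with hneg | hzero | hpos
    · obtain ⟨D, hD⟩ : ∃ D : ℝ, D = -((V (Real.log (x + h)) - Real.exp (Real.log (x + h))) -
        (V (Real.log x) - Real.exp (Real.log x))) := ⟨_, rfl⟩
      have hD0 : 0 < D := by rw [hD]; linarith
      rw [abs_of_neg hneg, ← hD]
      have hDle : D ≤ 3 * C * x ^ f := by
        rw [abs_of_neg hneg, ← hD] at htriv; exact htriv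
      obtain ⟨T, v, hTl, hTu, hv0, hv, hint⟩ := S4_neg hV hx1 hh hhx hD0 (by rw [hD]; ring)
      have hv' : v ≤ h / x + D / (4 * x) := by
        have : 0 ≤ D / (4 * x) := by positivity
        linarith
      have hTx := hTexp T hTu
      have hle := hL T v (le_trans hT0 hTl) hv0 (hrange D T v hD0.le hDle hv' hTx)
      refine S4_final hx1 hh hD0 hK hb hg0 hg1 hδg hv0 hv' hTx hKx ?_
      have : D ^ 2 / (32 * x) ≤ D ^ 2 / (16 * x) := by
        apply div_le_div_of_nonneg_left (by positivity) (by positivity) (by linarith)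
      linarith
    · rw [hzero, abs_zero]; positivity
    · obtain ⟨D, hD⟩ : ∃ D : ℝ, D = ((V (Real.log (x + h)) - Real.exp (Real.log (x + h))) -
        (V (Real.log x) - Real.exp (Real.log x))) := ⟨_, rfl⟩
      have hD0 : 0 < D := by rw [hD]; exact hpos
      rw [abs_of_pos hpos, ← hD]
      have hDle : D ≤ 3 * C * x ^ f := by
        rw [abs_of_pos hpos, ← hD] at htriv; exact htriv
      obtain ⟨T, v, hTl, hTu, hv0, hv, hint⟩ := S4_pos hV hx1 hh hhx hD0 (le_trans hDle h3x) hD.symm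
      have hTx := hTexp T hTu
      have hle := hRt T v (le_trans hT0 hTl) hv0 (hrange D T v hD0.le hDle hv hTx)
      refine S4_final hx1 hh hD0 hK hb hg0 hg1 hδg hv0 hv hTx hKx ?_
      linarith

end Pool.Agent.GS
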